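import Mathlib

/-!
# Jet ideals of edge ideals can have embedded primes
-/

namespace Pool.Agent.Results.MP_dc74b6_ag.PathFive

open MvPolynomial

section defs
variable {k : Type*} [Field k] {n : ℕ}

/-- The coefficient `f^{(j)}` of `t^j` in `f(∑ₗ x_{1,l} t^l, …, ∑ₗ x_{n,l} t^l)`
(`l = 0, …, s`). -/
noncomputable def jetCoeff (s : ℕ) (f : MvPolynomial (Fin n) k) (j : ℕ) :
    MvPolynomial (Fin n × Fin (s + 1)) k :=
  (aeval (fun i : Fin n => ∑ l : Fin (s + 1),
    (Polynomial.C (X (i, l)) * Polynomial.X ^ (l : ℕ) :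
      Polynomial (MvPolynomial (Fin n × Fin (s + 1)) k))) f).coeff j

/-- The `s`-jet ideal `J_s(I)`, generated by the `f^{(j)}` with `f ∈ I` and `0 ≤ j ≤ s`. -/
noncomputable def jetIdeal (s : ℕ) (I : Ideal (MvPolynomial (Fin n) k)) :
    Ideal (MvPolynomial (Fin n × Fin (s + 1)) k) :=
  Ideal.span {g | ∃ f ∈ I, ∃ j ≤ s, g = jetCoeff s f j}

/-- The edge ideal of a family `C` of subsets of `{0, …, n-1}`. -/
noncomputable def edgeIdeal (k : Type*) [Field k] {n : ℕ} (C : Finset (Finset (Fin n))) :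
    Ideal (MvPolynomial (Fin n) k) :=
  Ideal.span {g | ∃ e ∈ C, g = ∏ i ∈ e, X i}

/-- `C` is a clutter: a family of nonempty sets, none of which contains another. -/
def IsClutter {n : ℕ} (C : Finset (Finset (Fin n))) : Prop :=
  (∀ e ∈ C, e.Nonempty) ∧ ∀ e ∈ C, ∀ e' ∈ C, e ⊆ e' → e = e'

end defs

/-- A criterion for embedded primes. -/
theorem exists_embedded {S : Type*} [CommRing S] [IsNoetherianRing S] (I Q' : Ideal S) (g r : S)
    (hg : g ∉ I) (hQ' : Q'.IsPrime) (hI : I ≤ Q') (hann : ∀ q ∈ Q', q * g ∈ I) (hr : r ∉ Q')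
    (hrg : r * g ∈ I) :
    ∃ P ∈ associatedPrimes S (S ⧸ I), ∃ Q ∈ associatedPrimes S (S ⧸ I), Q ∈ I.minimalPrimes ∧
      Q < P := by
  have hx : (Ideal.Quotient.mk I g) ≠ 0 := fun h => hg (Ideal.Quotient.eq_zero_iff_mem.1 h)
  obtain ⟨P, hP, hle⟩ := exists_le_isAssociatedPrime_of_isNoetherianRing S _ hx
  have key : ∀ a, a * g ∈ I → a ∈ P := by
    intro a ha
    apply hle
    rw [Submodule.mem_colon_singleton, Submodule.mem_bot]
    have : a • (Ideal.Quotient.mk I g) = Ideal.Quotient.mk I (a * g) := rfl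
    rw [this, Ideal.Quotient.eq_zero_iff_mem]
    exact ha
  have h1 : Q' < P := by
    refine lt_of_le_of_ne (fun q hq => key q (hann q hq)) ?_
    rintro rfl
    exact hr (key r hrg)
  obtain ⟨Q, hQ, hQQ'⟩ := Ideal.exists_minimalPrimes_le (J := Q') hI
  refine ⟨P, hP, Q, ?_, hQ, hQQ'.trans_lt h1⟩
  have := Module.associatedPrimes.minimalPrimes_annihilator_subset_associatedPrimes S (S ⧸ I)
  rw [Ideal.annihilator_quotient] at this
  exact this hQ

section jets
variable {k : Type*} [Field k]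

lemma jetIdeal_le_ker {n s : ℕ} {T : Type*} [CommRing T] (C : Finset (Finset (Fin n)))
    (φ : MvPolynomial (Fin n × Fin (s + 1)) k →+* T)
    (h : ∀ e ∈ C, ∀ j ≤ s, φ (jetCoeff s (∏ i ∈ e, X i) j) = 0) :
    jetIdeal s (edgeIdeal k C) ≤ RingHom.ker φ := by
  apply Ideal.span_le.2
  rintro g ⟨f, hf, j, hj, rfl⟩
  rw [SetLike.mem_coe, RingHom.mem_ker]
  revert j
  unfold edgeIdeal at hf
  induction hf using Submodule.span_induction with
  | mem x hx =>
    obtain ⟨e, he, rfl⟩ := hx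
    exact h e he
  | zero => intro j hj; simp [jetCoeff]
  | add x y _ _ hx hy =>
    intro j hj
    have : jetCoeff s (x + y) j = jetCoeff s x j + jetCoeff s y j := by simp [jetCoeff]
    rw [this, map_add, hx j hj, hy j hj, add_zero]
  | smul a x _ hx =>
    intro j hj
    have : jetCoeff s (a • x) j =
        ∑ p ∈ Finset.HasAntidiagonal.antidiagonal j, jetCoeff s a p.1 * jetCoeff s x p.2 := by
      simp only [jetCoeff, smul_eq_mul, map_mul, Polynomial.coeff_mul]
    rw [this, map_sum]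
    apply Finset.sum_eq_zero
    intro p hp
    rw [map_mul, hx p.2 ?_, mul_zero]
    have := Finset.HasAntidiagonal.mem_antidiagonal.1 hp
    omega

lemma jetCoeff_pair0 {n : ℕ} (a b : Fin n) :
    jetCoeff 1 (X a * X b : MvPolynomial (Fin n) k) 0 = X (a, 0) * X (b, 0) := by
  simp [jetCoeff, Fin.sum_univ_two, Polynomial.mul_coeff_zero]

lemma jetCoeff_pair1 {n : ℕ} (a b : Fin n) :
    jetCoeff 1 (X a * X b : MvPolynomial (Fin n) k) 1 =
      X (a, 0) * X (b, 1) + X (a, 1) * X (b, 0) := by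
  simp [jetCoeff, Fin.sum_univ_two, Polynomial.mul_coeff_one]

/-- the edges of the path with five vertices -/
def P5 : Finset (Finset (Fin 5)) := {{0, 1}, {1, 2}, {2, 3}, {3, 4}}

lemma isClutter_P5 : IsClutter P5 := by
  unfold IsClutter P5
  decide

lemma le_ker {T : Type*} [CommRing T] (φ : MvPolynomial (Fin 5 × Fin 2) k →+* T)
    (h : ∀ i : Fin 4, φ (X (i.castSucc, 0)) * φ (X (i.succ, 0)) = 0 ∧
      φ (X (i.castSucc, 0)) * φ (X (i.succ, 1)) + φ (X (i.castSucc, 1)) * φ (X (i.succ, 0)) = 0) :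
    jetIdeal 1 (edgeIdeal k P5) ≤ RingHom.ker φ := by
  apply jetIdeal_le_ker
  have h' : ∀ i : Fin 4, ∀ j ≤ 1,
      φ (jetCoeff 1 (∏ l ∈ ({i.castSucc, i.succ} : Finset (Fin 5)), X l) j) = 0 := by
    intro i j hj
    rw [Finset.prod_pair (Fin.castSucc_lt_succ).ne]
    interval_cases j
    · rw [jetCoeff_pair0, map_mul]; exact (h i).1
    · rw [jetCoeff_pair1, map_add, map_mul, map_mul]; exact (h i).2
  intro e he
  simp only [P5, Finset.mem_insert, Finset.mem_singleton] at he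
  rcases he with rfl | rfl | rfl | rfl
  · exact h' 0
  · exact h' 1
  · exact h' 2
  · exact h' 3

lemma mem0 (i : Fin 4) :
    (X (i.castSucc, 0) * X (i.succ, 0) : MvPolynomial (Fin 5 × Fin 2) k) ∈
      jetIdeal 1 (edgeIdeal k P5) := by
  apply Ideal.subset_span
  refine ⟨X i.castSucc * X i.succ, ?_, 0, by omega, (jetCoeff_pair0 _ _).symm⟩
  apply Ideal.subset_span
  refine ⟨{i.castSucc, i.succ}, ?_, (Finset.prod_pair (Fin.castSucc_lt_succ).ne).symm⟩
  revert i
  decide

lemma mem1 (i : Fin 4) :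
    (X (i.castSucc, 0) * X (i.succ, 1) + X (i.castSucc, 1) * X (i.succ, 0) :
      MvPolynomial (Fin 5 × Fin 2) k) ∈ jetIdeal 1 (edgeIdeal k P5) := by
  apply Ideal.subset_span
  refine ⟨X i.castSucc * X i.succ, ?_, 1, le_rfl, (jetCoeff_pair1 _ _).symm⟩
  apply Ideal.subset_span
  refine ⟨{i.castSucc, i.succ}, ?_, (Finset.prod_pair (Fin.castSucc_lt_succ).ne).symm⟩
  revert i
  decide

/-- the hom killing the variables `x_{i,0}` -/
noncomputable def kill : MvPolynomial (Fin 5 × Fin 2) k →ₐ[k] MvPolynomial (Fin 5 × Fin 2) k :=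
  aeval (fun x => if x.2 = 0 then 0 else X x)

lemma mem_of_kill {q : MvPolynomial (Fin 5 × Fin 2) k} (hq : kill q = 0)
    {I : Ideal (MvPolynomial (Fin 5 × Fin 2) k)} (hI : ∀ i : Fin 5, X (i, 0) ∈ I) : q ∈ I := by
  have h : (Ideal.Quotient.mk I).comp (kill (k := k)).toRingHom = Ideal.Quotient.mk I := by
    apply MvPolynomial.ringHom_ext
    · intro c
      simp [kill]
    · rintro ⟨i, j⟩
      simp only [kill, RingHom.comp_apply, AlgHom.toRingHom_eq_coe, RingHom.coe_coe, aeval_X]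
      split_ifs with hj
      · rw [map_zero, eq_comm, Ideal.Quotient.eq_zero_iff_mem, hj]
        exact hI i
      · rfl
  have h1 := congrArg (fun f => f q) h
  simp only [RingHom.comp_apply, AlgHom.toRingHom_eq_coe, RingHom.coe_coe, hq, map_zero] at h1
  exact Ideal.Quotient.eq_zero_iff_mem.1 h1.symm

/-- the element `x_{0,1} x_{4,1} x_{1,0} x_{3,0}` -/
noncomputable def gg : MvPolynomial (Fin 5 × Fin 2) k := X (0, 1) * X (4, 1) * X (1, 0) * X (3, 0)

lemma gg_map {T : Type*} [CommRing T] (f : k →+* T) (e1 e2 : T) (h1 : e1 * e1 = 0)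
    (h2 : e2 * e2 = 0) (h : (gg : MvPolynomial (Fin 5 × Fin 2) k) ∈ jetIdeal 1 (edgeIdeal k P5)) :
    e1 * e2 = 0 := by
  let v : Fin 5 → Fin 2 → T :=
    ![![-e1, 1], ![e1, 1], ![0, 0], ![e2, 1], ![-e2, 1]]
  let φ : MvPolynomial (Fin 5 × Fin 2) k →+* T := eval₂Hom f (fun x => v x.1 x.2)
  have hφ : ∀ i j, φ (X (i, j)) = v i j := by
    intro i j
    simp [φ]
  have hv : ∀ i : Fin 4, v i.castSucc 0 * v i.succ 0 = 0 ∧
      v i.castSucc 0 * v i.succ 1 + v i.castSucc 1 * v i.succ 0 = 0 := by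
    intro i
    fin_cases i
    · exact ⟨by simp [v, h1], by simp [v]⟩
    · exact ⟨by simp [v], by simp [v]⟩
    · exact ⟨by simp [v], by simp [v]⟩
    · exact ⟨by simp [v, h2], by simp [v]⟩
  have hle : jetIdeal 1 (edgeIdeal k P5) ≤ RingHom.ker φ := by
    apply le_ker
    intro i
    rw [hφ, hφ, hφ, hφ]
    exact hv i
  have h3 := hle h
  rw [RingHom.mem_ker, gg, map_mul, map_mul, map_mul, hφ, hφ, hφ, hφ] at h3
  simpa [v] using h3

lemma gg_notMem : (gg : MvPolynomial (Fin 5 × Fin 2) k) ∉ jetIdeal 1 (edgeIdeal k P5) := by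
  intro h
  have h1 : (TrivSqZeroExt.inl DualNumber.eps : DualNumber (DualNumber k)) *
      TrivSqZeroExt.inl DualNumber.eps = 0 := by
    rw [← TrivSqZeroExt.inl_mul, DualNumber.eps_mul_eps, TrivSqZeroExt.inl_zero]
  have h2 : (DualNumber.eps : DualNumber (DualNumber k)) * DualNumber.eps = 0 :=
    DualNumber.eps_mul_eps
  have h4 := gg_map (T := DualNumber (DualNumber k))
      ((algebraMap (DualNumber k) (DualNumber (DualNumber k))).comp
      (algebraMap k (DualNumber k))) (TrivSqZeroExt.inl DualNumber.eps) DualNumber.eps h1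
      h2 h
  have h5 := congrArg (fun z => TrivSqZeroExt.snd (TrivSqZeroExt.snd z)) h4
  simp at h5

lemma mul_gg_mem (i : Fin 5) :
    X (i, 0) * (gg : MvPolynomial (Fin 5 × Fin 2) k) ∈ jetIdeal 1 (edgeIdeal k P5) := by
  have a0 := mem0 (k := k) 0
  have a1 := mem0 (k := k) 1
  have a2 := mem0 (k := k) 2
  have a3 := mem0 (k := k) 3
  have b0 := mem1 (k := k) 0
  have b3 := mem1 (k := k) 3
  have e0 : (0 : Fin 4).castSucc = 0 := rfl
  have e1 : (0 : Fin 4).succ = 1 := rfl
  have e2 : (1 : Fin 4).castSucc = 1 := rfl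
  have e3 : (1 : Fin 4).succ = 2 := rfl
  have e4 : (2 : Fin 4).castSucc = 2 := rfl
  have e5 : (2 : Fin 4).succ = 3 := rfl
  have e6 : (3 : Fin 4).castSucc = 3 := rfl
  have e7 : (3 : Fin 4).succ = 4 := rfl
  rw [e0, e1] at a0 b0
  rw [e2, e3] at a1
  rw [e4, e5] at a2
  rw [e6, e7] at a3 b3
  unfold gg
  fin_cases i
  · have := Ideal.mul_mem_left _ (X (0, 1) * X (4, 1) * X (3, 0)) a0
    convert this using 1
    simp only [Fin.zero_eta]
    ring
  · have h1 := Ideal.mul_mem_left _ (X (4, 1) * X (3, 0) * X (1, 0)) b0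
    have h2 := Ideal.mul_mem_left _ (X (4, 1) * X (3, 0) * X (1, 1)) a0
    have := Ideal.sub_mem _ h1 h2
    convert this using 1
    simp only [Fin.mk_one]
    ring
  · have := Ideal.mul_mem_left _ (X (0, 1) * X (4, 1) * X (3, 0)) a1
    convert this using 1
    simp only [Fin.reduceFinMk]
    ring
  · have h1 := Ideal.mul_mem_left _ (X (0, 1) * X (1, 0) * X (3, 0)) b3
    have h2 := Ideal.mul_mem_left _ (X (0, 1) * X (1, 0) * X (3, 1)) a3
    have := Ideal.sub_mem _ h1 h2
    convert this using 1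
    simp only [Fin.reduceFinMk]
    ring
  · have := Ideal.mul_mem_left _ (X (0, 1) * X (4, 1) * X (1, 0)) a3
    convert this using 1
    simp only [Fin.reduceFinMk]
    ring

lemma w_mul_gg_mem :
    X (2, 1) * (gg : MvPolynomial (Fin 5 × Fin 2) k) ∈ jetIdeal 1 (edgeIdeal k P5) := by
  have a1 := mem0 (k := k) 1
  have b2 := mem1 (k := k) 2
  have e2 : (1 : Fin 4).castSucc = 1 := rfl
  have e3 : (1 : Fin 4).succ = 2 := rfl
  have e4 : (2 : Fin 4).castSucc = 2 := rfl
  have e5 : (2 : Fin 4).succ = 3 := rfl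
  rw [e2, e3] at a1
  rw [e4, e5] at b2
  unfold gg
  have h1 := Ideal.mul_mem_left _ (X (0, 1) * X (4, 1) * X (1, 0)) b2
  have h2 := Ideal.mul_mem_left _ (X (0, 1) * X (4, 1) * X (3, 1)) a1
  have := Ideal.sub_mem _ h1 h2
  convert this using 1
  ring

end jets

/-- **Jet ideals of edge ideals can have embedded primes.** Over every field `k`, the `1`-jet ideal
of the edge ideal of some clutter (in fact of the path with five vertices) has an embedded prime
`P`: it properly contains another associated prime, which is a minimal prime. -/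
theorem result (k : Type*) [Field k] :
    ∃ C : Finset (Finset (Fin 5)), IsClutter C ∧
      ∃ P ∈ associatedPrimes (MvPolynomial (Fin 5 × Fin (1 + 1)) k)
          (MvPolynomial (Fin 5 × Fin (1 + 1)) k ⧸ jetIdeal 1 (edgeIdeal k C)),
      ∃ Q ∈ associatedPrimes (MvPolynomial (Fin 5 × Fin (1 + 1)) k)
          (MvPolynomial (Fin 5 × Fin (1 + 1)) k ⧸ jetIdeal 1 (edgeIdeal k C)),
        Q ∈ (jetIdeal 1 (edgeIdeal k C)).minimalPrimes ∧ Q < P := by
  refine ⟨P5, isClutter_P5, exists_embedded (jetIdeal 1 (edgeIdeal k P5))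
    (RingHom.ker (kill (k := k)).toRingHom) gg (X (2, 1)) gg_notMem
    (RingHom.ker_isPrime _) ?_ ?_ ?_ ?_⟩
  · apply le_ker
    intro i
    simp [kill]
  · intro q hq
    have h : q ∈ (jetIdeal 1 (edgeIdeal k P5)).colon {gg} := by
      apply mem_of_kill hq
      intro i
      rw [Submodule.mem_colon_singleton, smul_eq_mul]
      exact mul_gg_mem i
    rw [Submodule.mem_colon_singleton, smul_eq_mul] at h
    exact h
  · simp [kill]
  · exact w_mul_gg_mem

end Pool.Agent.Results.MP_dc74b6_ag.PathFive
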